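import Mathlib

/-!
# The König graph process: a perfect matching always appears, and at that moment the optimal
cover is never unique
-/

set_option autoImplicit false

namespace Pool.Agent.Results.MP_f77465_pr.NeverUnique

open Finset Filter Topology
open scoped Classical

/-- pairs of distinct vertices, i.e. the edges of `K_n` -/
abbrev Edge (n : ℕ) : Type := {e : Sym2 (Fin n) // ¬ e.IsDiag}

/-- `M` is a matching of `G`: a set of edges of `G`, no two of which share a vertex. -/
def IsMatchingSet {n : ℕ} (G : SimpleGraph (Fin n)) (M : Finset (Sym2 (Fin n))) : Prop :=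
  (∀ e ∈ M, e ∈ G.edgeSet) ∧ ∀ e ∈ M, ∀ f ∈ M, ∀ v : Fin n, v ∈ e → v ∈ f → e = f

/-- `C` is a vertex cover of `G`: it meets every edge. -/
def IsCover {n : ℕ} (G : SimpleGraph (Fin n)) (C : Finset (Fin n)) : Prop :=
  ∀ e ∈ G.edgeSet, ∃ v ∈ C, v ∈ e

/-- the matching number `ν(G)` -/
noncomputable def nu {n : ℕ} (G : SimpleGraph (Fin n)) : ℕ :=
  ((univ : Finset (Finset (Sym2 (Fin n)))).filter fun M => IsMatchingSet G M).sup Finset.card

/-- the vertex cover number `τ(G)` -/
noncomputable def tau {n : ℕ} (G : SimpleGraph (Fin n)) : ℕ :=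
  sInf {k : ℕ | ∃ C : Finset (Fin n), IsCover G C ∧ C.card = k}

/-- `G` is a König graph: `τ(G) = ν(G)`. -/
def IsKonig {n : ℕ} (G : SimpleGraph (Fin n)) : Prop := tau G = nu G

/-- `C` is an optimal cover of `G`: a vertex cover of size `τ(G)`. -/
def IsOptimalCover {n : ℕ} (G : SimpleGraph (Fin n)) (C : Finset (Fin n)) : Prop :=
  IsCover G C ∧ C.card = tau G

/-- `G` has a perfect matching. -/
def HasPM {n : ℕ} (G : SimpleGraph (Fin n)) : Prop :=
  ∃ M : Finset (Sym2 (Fin n)), IsMatchingSet G M ∧ ∀ v : Fin n, ∃ e ∈ M, v ∈ e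

/-- the graph `G + e` -/
def addEdge {n : ℕ} (G : SimpleGraph (Fin n)) (e : Edge n) : SimpleGraph (Fin n) :=
  G ⊔ SimpleGraph.fromEdgeSet {e.1}

/-- The graph `G_i` of the König graph process along the ordering `σ` of the edges of `K_n`
(where `N` is the number of edges of `K_n`). -/
noncomputable def proc {n : ℕ} (σ : Fin (n.choose 2) ≃ Edge n) : ℕ → SimpleGraph (Fin n)
  | 0 => ⊥
  | i + 1 =>
    if h : i < n.choose 2 then
      (if IsKonig (addEdge (proc σ i) (σ ⟨i, h⟩)) then addEdge (proc σ i) (σ ⟨i, h⟩)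
        else proc σ i)
    else proc σ i

/-- `T` is the first index `i` for which `G_i` has a perfect matching. -/
def IsFirst {n : ℕ} (σ : Fin (n.choose 2) ≃ Edge n) (T : ℕ) : Prop :=
  T ≤ n.choose 2 ∧ HasPM (proc σ T) ∧ ∀ i < T, ¬ HasPM (proc σ i)

/-- The event of Q1: either no `G_i` has a perfect matching, or at the first moment `T` when there
is one, the graph `G_T` has exactly one optimal cover. -/
def UniqueEvent {n : ℕ} (σ : Fin (n.choose 2) ≃ Edge n) : Prop :=
  (∀ i ≤ n.choose 2, ¬ HasPM (proc σ i)) ∨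
    ∃ T, IsFirst σ T ∧ ∃! C : Finset (Fin n), IsOptimalCover (proc σ T) C

/-- the probability of an event for a uniformly random ordering of the edges of `K_n` -/
noncomputable def prob (n : ℕ) (A : (Fin (n.choose 2) ≃ Edge n) → Prop) : ℝ :=
  ((univ.filter A).card : ℝ) / (Fintype.card (Fin (n.choose 2) ≃ Edge n) : ℝ)

section basics

variable {n : ℕ}

/-- vertices covered by a set of edges -/
noncomputable def VM (M : Finset (Sym2 (Fin n))) : Finset (Fin n) := M.biUnion Sym2.toFinset

theorem mem_VM (M : Finset (Sym2 (Fin n))) (v : Fin n) : v ∈ VM M ↔ ∃ e ∈ M, v ∈ e := by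
  unfold VM
  rw [mem_biUnion]
  simp only [Sym2.mem_toFinset]

theorem card_VM (G : SimpleGraph (Fin n)) (M : Finset (Sym2 (Fin n))) (hM : IsMatchingSet G M) :
    (VM M).card = 2 * M.card := by
  unfold VM
  rw [card_biUnion]
  · rw [sum_congr rfl (fun e he => Sym2.card_toFinset_of_not_isDiag e
      (SimpleGraph.not_isDiag_of_mem_edgeSet _ (hM.1 e he)))]
    rw [sum_const, smul_eq_mul, mul_comm]
  · intro e he f hf hne
    rw [Function.onFun, Finset.disjoint_left]
    intro v hv hv'
    rw [Sym2.mem_toFinset] at hv hv'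
    exact hne (hM.2 e he f hf v hv hv')

theorem le_nu (G : SimpleGraph (Fin n)) (M : Finset (Sym2 (Fin n))) (hM : IsMatchingSet G M) :
    M.card ≤ nu G :=
  Finset.le_sup (f := Finset.card) (by rw [mem_filter]; exact ⟨mem_univ _, hM⟩)

theorem empty_matching (G : SimpleGraph (Fin n)) : IsMatchingSet G ∅ :=
  ⟨fun e he => by simp at he, fun e he => by simp at he⟩

theorem exists_nu (G : SimpleGraph (Fin n)) :
    ∃ M : Finset (Sym2 (Fin n)), IsMatchingSet G M ∧ M.card = nu G := by
  obtain ⟨M, hM, hc⟩ := Finset.exists_mem_eq_sup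
    ((univ : Finset (Finset (Sym2 (Fin n)))).filter fun M => IsMatchingSet G M)
    ⟨∅, by rw [mem_filter]; exact ⟨mem_univ _, empty_matching G⟩⟩ Finset.card
  rw [mem_filter] at hM
  exact ⟨M, hM.2, hc.symm⟩

theorem exists_tau (G : SimpleGraph (Fin n)) : ∃ C : Finset (Fin n), IsOptimalCover G C := by
  have hne : {k : ℕ | ∃ C : Finset (Fin n), IsCover G C ∧ C.card = k}.Nonempty := by
    refine ⟨_, univ, ?_, rfl⟩
    intro e _
    induction e with
    | _ a b => exact ⟨a, mem_univ _, by simp⟩
  exact Nat.sInf_mem hne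

theorem tau_le (G : SimpleGraph (Fin n)) (C : Finset (Fin n)) (hC : IsCover G C) :
    tau G ≤ C.card := Nat.sInf_le ⟨C, hC, rfl⟩

/-- weak duality -/
theorem card_le_card_cover (G : SimpleGraph (Fin n)) (M : Finset (Sym2 (Fin n)))
    (C : Finset (Fin n)) (hM : IsMatchingSet G M) (hC : IsCover G C) : M.card ≤ C.card := by
  have h : ∀ e : Sym2 (Fin n), ∃ v : Fin n, e ∈ M → v ∈ C ∧ v ∈ e := by
    intro e
    by_cases he : e ∈ M
    · obtain ⟨v, hv, hve⟩ := hC e (hM.1 e he)
      exact ⟨v, fun _ => ⟨hv, hve⟩⟩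
    · induction e with
      | _ a b => exact ⟨a, fun h => absurd h he⟩
  choose f hf using h
  refine card_le_card_of_injOn f (fun e he => (hf e he).1) ?_
  intro e he e' he' hee
  refine hM.2 e he e' he' (f e) (hf e he).2 ?_
  rw [hee]
  exact (hf e' he').2

theorem nu_le_tau (G : SimpleGraph (Fin n)) : nu G ≤ tau G := by
  obtain ⟨M, hM, hc⟩ := exists_nu G
  obtain ⟨C, hC, hc'⟩ := exists_tau G
  rw [← hc, ← hc']
  exact card_le_card_cover G M C hM hC

theorem mem_addEdge (G : SimpleGraph (Fin n)) (e : Edge n) (f : Sym2 (Fin n)) :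
    f ∈ (addEdge G e).edgeSet ↔ f ∈ G.edgeSet ∨ f = e.1 := by
  unfold addEdge
  rw [SimpleGraph.edgeSet_sup, SimpleGraph.edgeSet_fromEdgeSet]
  constructor
  · rintro (h | h)
    · exact Or.inl h
    · exact Or.inr h.1
  · rintro (h | h)
    · exact Or.inl h
    · right
      subst h
      exact ⟨rfl, e.2⟩

theorem matching_add (G : SimpleGraph (Fin n)) (e : Edge n) (M : Finset (Sym2 (Fin n)))
    (hM : IsMatchingSet G M) : IsMatchingSet (addEdge G e) M :=
  ⟨fun f hf => (mem_addEdge G e f).2 (Or.inl (hM.1 f hf)), hM.2⟩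

theorem cover_of_add (G : SimpleGraph (Fin n)) (e : Edge n) (C : Finset (Fin n))
    (hC : IsCover G C) (v : Fin n) (hv : v ∈ e.1) : IsCover (addEdge G e) (insert v C) := by
  intro f hf
  rcases (mem_addEdge G e f).1 hf with h | h
  · obtain ⟨w, hw, hwf⟩ := hC f h
    exact ⟨w, mem_insert_of_mem hw, hwf⟩
  · exact ⟨v, mem_insert_self _ _, h ▸ hv⟩

/-- inserting an edge both of whose endpoints are uncovered -/
theorem matching_insert (G : SimpleGraph (Fin n)) (M : Finset (Sym2 (Fin n)))
    (hM : IsMatchingSet G M) (e : Sym2 (Fin n)) (he : e ∈ G.edgeSet)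
    (hv : ∀ v ∈ e, v ∉ VM M) : IsMatchingSet G (insert e M) ∧ (insert e M).card = M.card + 1 := by
  have hne : e ∉ M := by
    intro h
    induction e with
    | _ a b =>
    exact hv a (by simp) ((mem_VM M a).2 ⟨_, h, by simp⟩)
  refine ⟨⟨?_, ?_⟩, card_insert_of_notMem hne⟩
  · intro f hf
    rw [mem_insert] at hf
    rcases hf with rfl | hf
    · exact he
    · exact hM.1 f hf
  · intro f hf g hg v hvf hvg
    rw [mem_insert] at hf hg
    rcases hf with rfl | hf <;> rcases hg with rfl | hg
    · rfl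
    · exact absurd ((mem_VM M v).2 ⟨g, hg, hvg⟩) (hv v hvf)
    · exact absurd ((mem_VM M v).2 ⟨f, hf, hvf⟩) (hv v hvg)
    · exact hM.2 f hf g hg v hvf hvg

theorem matching_subset (G : SimpleGraph (Fin n)) (M M' : Finset (Sym2 (Fin n)))
    (hM : IsMatchingSet G M) (h : M' ⊆ M) : IsMatchingSet G M' :=
  ⟨fun e he => hM.1 e (h he), fun e he f hf => hM.2 e (h he) f (h hf)⟩

/-- Every matching `M` has a maximum matching covering all vertices covered by `M`. -/
theorem extend_matching (G : SimpleGraph (Fin n)) (M : Finset (Sym2 (Fin n)))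
    (hM : IsMatchingSet G M) :
    ∃ N : Finset (Sym2 (Fin n)), IsMatchingSet G N ∧ N.card = nu G ∧ VM M ⊆ VM N := by
  obtain ⟨N0, hN0, hN0c⟩ := exists_nu G
  obtain ⟨N, hN, hmax⟩ := Finset.exists_max_image
    ((univ : Finset (Finset (Sym2 (Fin n)))).filter fun N => IsMatchingSet G N ∧ N.card = nu G)
    (fun N => (N ∩ M).card) ⟨N0, by rw [mem_filter]; exact ⟨mem_univ _, hN0, hN0c⟩⟩
  rw [mem_filter] at hN
  obtain ⟨-, hNm, hNc⟩ := hN
  refine ⟨N, hNm, hNc, ?_⟩
  intro v hv
  by_contra hvN
  rw [mem_VM] at hv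
  obtain ⟨e, heM, hve⟩ := hv
  obtain ⟨w, rfl⟩ := Sym2.mem_iff_exists.1 hve
  have heG := hM.1 _ heM
  -- `w` is covered by `N`
  have hwN : w ∈ VM N := by
    by_contra hw
    have := matching_insert G N hNm s(v, w) heG (by
      intro x hx
      rw [Sym2.mem_iff] at hx
      rcases hx with rfl | rfl
      · exact hvN
      · exact hw)
    have h2 := le_nu G _ this.1
    rw [this.2, hNc] at h2
    omega
  rw [mem_VM] at hwN
  obtain ⟨f, hfN, hwf⟩ := hwN
  have hfM : f ∉ M := by
    intro h
    have := hM.2 _ heM f h w (by simp) hwf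
    apply hvN
    rw [mem_VM]
    exact ⟨f, hfN, this ▸ (by simp)⟩
  have hN' : IsMatchingSet G (N.erase f) := matching_subset G N _ hNm (erase_subset _ _)
  have hun : ∀ x ∈ s(v, w), x ∉ VM (N.erase f) := by
    intro x hx hxN
    rw [Sym2.mem_iff] at hx
    rw [mem_VM] at hxN
    obtain ⟨g, hg, hxg⟩ := hxN
    rw [mem_erase] at hg
    rcases hx with rfl | rfl
    · exact hvN ((mem_VM N x).2 ⟨g, hg.2, hxg⟩)
    · exact hg.1 (hNm.2 g hg.2 f hfN x hxg hwf)
  have hins := matching_insert G (N.erase f) hN' s(v, w) heG hun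
  have hcard : (insert s(v, w) (N.erase f)).card = nu G := by
    rw [hins.2, card_erase_of_mem hfN, hNc]
    have : 0 < N.card := card_pos.2 ⟨f, hfN⟩
    omega
  have hle := hmax (insert s(v, w) (N.erase f)) (by
    rw [mem_filter]; exact ⟨mem_univ _, hins.1, hcard⟩)
  have hvw : s(v, w) ∉ N := fun h => hvN ((mem_VM N v).2 ⟨_, h, by simp⟩)
  have h1 : (insert s(v, w) (N.erase f)) ∩ M = insert s(v, w) (N ∩ M) := by
    rw [insert_inter_of_mem heM]
    congr 1
    ext g
    simp only [mem_inter, mem_erase]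
    constructor
    · rintro ⟨⟨_, h⟩, h'⟩; exact ⟨h, h'⟩
    · rintro ⟨h, h'⟩; exact ⟨⟨fun h3 => hfM (h3 ▸ h'), h⟩, h'⟩
  rw [h1, card_insert_of_notMem (fun h => hvw (mem_inter.1 h).1)] at hle
  omega

/-- the vertices missed by a non-perfect matching -/
theorem hasPM_iff (G : SimpleGraph (Fin n)) : HasPM G ↔ 2 * nu G = n := by
  constructor
  · rintro ⟨M, hM, hall⟩
    have h1 : VM M = univ := by
      rw [Finset.eq_univ_iff_forall]
      intro v
      rw [mem_VM]
      exact hall v
    have h2 := card_VM G M hM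
    rw [h1, card_univ, Fintype.card_fin] at h2
    obtain ⟨N, hN, hNc⟩ := exists_nu G
    have h3 := card_VM G N hN
    have h4 : (VM N).card ≤ n := by
      have := card_le_univ (VM N)
      rwa [Fintype.card_fin] at this
    have h5 := le_nu G M hM
    omega
  · intro h
    obtain ⟨N, hN, hNc⟩ := exists_nu G
    refine ⟨N, hN, ?_⟩
    have h3 := card_VM G N hN
    have h4 : VM N = univ := by
      apply Finset.eq_univ_of_card
      rw [h3, hNc, h, Fintype.card_fin]
    intro v
    have : v ∈ VM N := by rw [h4]; exact mem_univ _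
    rwa [mem_VM] at this

theorem two_nu_le (G : SimpleGraph (Fin n)) : 2 * nu G ≤ n := by
  obtain ⟨N, hN, hNc⟩ := exists_nu G
  have h3 := card_VM G N hN
  have h4 : (VM N).card ≤ n := by
    have := card_le_univ (VM N)
    rwa [Fintype.card_fin] at this
  omega

theorem konig_bot : IsKonig (⊥ : SimpleGraph (Fin n)) := by
  have h1 : tau (⊥ : SimpleGraph (Fin n)) ≤ 0 := by
    have := tau_le (⊥ : SimpleGraph (Fin n)) ∅ (by intro e he; simp at he)
    simpa using this
  have h2 := nu_le_tau (⊥ : SimpleGraph (Fin n))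
  unfold IsKonig
  omega

theorem konig_proc (σ : Fin (n.choose 2) ≃ Edge n) (i : ℕ) : IsKonig (proc σ i) := by
  induction i with
  | zero => exact konig_bot
  | succ i ih =>
    rw [proc]
    split_ifs with h1 h2
    · exact h2
    · exact ih
    · exact ih

/-- The invariant: some maximum matching of `G_i` meets all pairs proposed so far. -/
theorem invariant (σ : Fin (n.choose 2) ≃ Edge n) (i : ℕ) :
    ∃ M : Finset (Sym2 (Fin n)), IsMatchingSet (proc σ i) M ∧ M.card = nu (proc σ i) ∧
      ∀ j : Fin (n.choose 2), j.1 < i → ∃ v ∈ (σ j).1, v ∈ VM M := by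
  induction i with
  | zero =>
    obtain ⟨M, hM, hc⟩ := exists_nu (proc σ 0)
    exact ⟨M, hM, hc, fun j hj => absurd hj (Nat.not_lt_zero _)⟩
  | succ i ih =>
    obtain ⟨M, hM, hc, hj⟩ := ih
    rw [proc]
    split_ifs with h1 h2
    · -- accepted
      set e := σ ⟨i, h1⟩ with he
      obtain ⟨N, hN, hNc, hsub⟩ := extend_matching (addEdge (proc σ i) e) M
        (matching_add _ _ _ hM)
      refine ⟨N, hN, hNc, ?_⟩
      intro j hji
      rcases Nat.lt_succ_iff_lt_or_eq.1 hji with h | h
      · obtain ⟨v, hv, hvM⟩ := hj j h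
        exact ⟨v, hv, hsub hvM⟩
      · have hje : σ j = e := by
          rw [he]
          congr 1
          exact Fin.ext h
        rw [hje]
        by_contra hcon
        push Not at hcon
        have h3 := matching_insert (addEdge (proc σ i) e) N hN e.1
          ((mem_addEdge _ e e.1).2 (Or.inr rfl)) hcon
        have h4 := le_nu _ _ h3.1
        rw [h3.2, hNc] at h4
        omega
    · -- rejected
      set e := σ ⟨i, h1⟩ with he
      refine ⟨M, hM, hc, ?_⟩
      intro j hji
      rcases Nat.lt_succ_iff_lt_or_eq.1 hji with h | h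
      · exact hj j h
      · have hje : σ j = e := by
          rw [he]
          congr 1
          exact Fin.ext h
        rw [hje]
        by_contra hcon
        push Not at hcon
        have h3 := matching_insert (addEdge (proc σ i) e) M (matching_add _ _ _ hM) e.1
          ((mem_addEdge _ e e.1).2 (Or.inr rfl)) hcon
        have h4 := le_nu _ _ h3.1
        rw [h3.2, hc] at h4
        apply h2
        -- the cover number grows by at most one
        obtain ⟨C, hC, hCc⟩ := exists_tau (proc σ i)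
        obtain ⟨v, hv⟩ : ∃ v, v ∈ e.1 := by
          obtain ⟨e0, he0⟩ := e
          induction e0 with
          | _ a b => exact ⟨a, by simp⟩
        have h5 := tau_le _ _ (cover_of_add (proc σ i) e C hC v hv)
        have h6 := card_insert_le v C
        have h7 := konig_proc σ i
        have h8 := nu_le_tau (addEdge (proc σ i) e)
        unfold IsKonig at h7 ⊢
        omega
    · refine ⟨M, hM, hc, ?_⟩
      intro j hji
      exact hj j (lt_of_lt_of_le j.2 (not_lt.1 h1))

/-- for even `n` the process always ends with a perfect matching -/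
theorem hasPM_end (hn : Even n) (σ : Fin (n.choose 2) ≃ Edge n) :
    HasPM (proc σ (n.choose 2)) := by
  obtain ⟨M, hM, hc, hj⟩ := invariant σ (n.choose 2)
  rw [hasPM_iff]
  by_contra hne
  have h1 := two_nu_le (proc σ (n.choose 2))
  have h2 := card_VM _ M hM
  obtain ⟨m, hm⟩ := hn
  have h3 : 2 ≤ (VM M)ᶜ.card := by
    rw [card_compl, Fintype.card_fin, h2, hc]
    omega
  obtain ⟨u, hu, v, hv, huv⟩ := Finset.one_lt_card.1 (show 1 < (VM M)ᶜ.card by omega)
  rw [mem_compl] at hu hv
  have hd : ¬ (s(u, v) : Sym2 (Fin n)).IsDiag := by simpa using huv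
  obtain ⟨w, hw, hwM⟩ := hj (σ.symm ⟨s(u, v), hd⟩) (σ.symm ⟨s(u, v), hd⟩).2
  rw [Equiv.apply_symm_apply, Sym2.mem_iff] at hw
  rcases hw with rfl | rfl
  · exact hu hwM
  · exact hv hwM

/-- at the first moment with a perfect matching there are two optimal covers -/
theorem two_covers (hn : 1 ≤ n) (σ : Fin (n.choose 2) ≃ Edge n) (T : ℕ) (hT : IsFirst σ T) :
    ∃ C C' : Finset (Fin n), C ≠ C' ∧ IsOptimalCover (proc σ T) C ∧
      IsOptimalCover (proc σ T) C' := by
  obtain ⟨-, hPM, hfirst⟩ := hT
  cases T with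
  | zero =>
    exfalso
    obtain ⟨M, hM, hall⟩ := hPM
    obtain ⟨e, he, -⟩ := hall ⟨0, hn⟩
    have := hM.1 e he
    rw [proc] at this
    simp at this
  | succ i =>
    have hno := hfirst i (Nat.lt_succ_self i)
    have hK := konig_proc σ (i + 1)
    have hK' := konig_proc σ i
    rw [hasPM_iff] at hPM hno
    rw [proc] at hPM hK ⊢
    split_ifs at hPM hK ⊢ with h1 h2
    · set e := σ ⟨i, h1⟩ with he
      set G := proc σ i with hG
      obtain ⟨C, hC, hCc⟩ := exists_tau G
      have h3 := two_nu_le G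
      unfold IsKonig at hK hK'
      -- `C` is too small to cover the new graph
      have hnot : ∀ v ∈ e.1, v ∉ C := by
        intro v hv hvC
        have h4 := tau_le _ _ (cover_of_add G e C hC v hv)
        rw [insert_eq_self.2 hvC] at h4
        omega
      have hopt : ∀ v ∈ e.1, IsOptimalCover (addEdge G e) (insert v C) := by
        intro v hv
        refine ⟨cover_of_add G e C hC v hv, ?_⟩
        have h4 := tau_le _ _ (cover_of_add G e C hC v hv)
        rw [card_insert_of_notMem (hnot v hv)] at h4 ⊢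
        omega
      obtain ⟨u, v, huv, hes⟩ : ∃ u v : Fin n, u ≠ v ∧ e.1 = s(u, v) := by
        obtain ⟨e0, he0⟩ := e
        induction e0 with
        | _ a b => exact ⟨a, b, by simpa using he0, rfl⟩
      have hu : u ∈ e.1 := by rw [hes]; simp
      have hv : v ∈ e.1 := by rw [hes]; simp
      refine ⟨insert u C, insert v C, ?_, hopt u hu, hopt v hv⟩
      intro heq
      have : u ∈ insert v C := by rw [← heq]; exact mem_insert_self _ _
      rw [mem_insert] at this
      rcases this with h | h
      · exact huv h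
      · exact hnot u hu h
    · exact absurd hPM hno
    · exact absurd hPM hno

end basics

/-- For every even `n ≥ 2` and EVERY ordering of the edges of `K_n`, the König graph process
reaches a perfect matching, and at the first such moment `T` the graph `G_T` has at least two
optimal covers.  Hence the probability in Q1 is `0` for every even `n ≥ 2`, and it does not tend
to `1`. -/
theorem result :
    (∀ n : ℕ, Even n → 2 ≤ n → ∀ σ : Fin (n.choose 2) ≃ Edge n, ∃ T : ℕ, IsFirst σ T ∧
      ∃ C C' : Finset (Fin n), C ≠ C' ∧ IsOptimalCover (proc σ T) C ∧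
        IsOptimalCover (proc σ T) C') ∧
    (∀ n : ℕ, Even n → 2 ≤ n → prob n UniqueEvent = 0) ∧
    ¬ Tendsto (fun m : ℕ => prob (2 * m) UniqueEvent) atTop (𝓝 1) := by
  have h1 : ∀ n : ℕ, Even n → 2 ≤ n → ∀ σ : Fin (n.choose 2) ≃ Edge n, ∃ T : ℕ, IsFirst σ T ∧
      ∃ C C' : Finset (Fin n), C ≠ C' ∧ IsOptimalCover (proc σ T) C ∧
        IsOptimalCover (proc σ T) C' := by
    intro n hn h2 σ
    have hex : ∃ i, HasPM (proc σ i) := ⟨_, hasPM_end hn σ⟩
    have hfirst : IsFirst σ (Nat.find hex) :=
      ⟨Nat.find_le (hasPM_end hn σ), Nat.find_spec hex, fun i hi => Nat.find_min hex hi⟩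
    exact ⟨Nat.find hex, hfirst, two_covers (by omega) σ _ hfirst⟩
  have h2 : ∀ n : ℕ, Even n → 2 ≤ n → prob n UniqueEvent = 0 := by
    intro n hn hn2
    unfold prob
    have : (univ.filter (UniqueEvent (n := n))) = ∅ := by
      rw [Finset.filter_eq_empty_iff]
      rintro σ - (h | ⟨T, hT, C, -, hC⟩)
      · exact h _ le_rfl (hasPM_end hn σ)
      · obtain ⟨C1, C2, hne, hC1, hC2⟩ := two_covers (by omega) σ T hT
        exact hne ((hC C1 hC1).trans (hC C2 hC2).symm)
    rw [this]
    simp
  refine ⟨h1, h2, ?_⟩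
  intro ht
  have h0 : Tendsto (fun m : ℕ => prob (2 * m) UniqueEvent) atTop (𝓝 0) := by
    refine (tendsto_congr' ?_).2 tendsto_const_nhds
    filter_upwards [eventually_ge_atTop 1] with m hm
    exact h2 (2 * m) (even_two_mul m) (by omega)
  exact zero_ne_one (tendsto_nhds_unique h0 ht)

end Pool.Agent.Results.MP_f77465_pr.NeverUnique
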